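import Pool.Agent.H844.Amp.Main

/-!
# Beilinson's conjectures on height pairings imply their forms for ample vector bundles and their
mixed forms

Let `X` be a smooth projective variety over a number field, `n = dim X`. The two questions of Beilinson
for an ample class `L` and the codimension `i`, `n + 1 = 2 i + k`, are `Q1 i k L`:
`L ^ k : Ch^i(X)^0 → Ch^(i + k)(X)^0` is bijective, and `Q2 i k L`: `(-1)^i (x, L ^ k x) > 0` for all
`x ≠ 0` in `Ch^i(X)^0` with `L ^ (k + 1) x = 0`.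

Let `𝒱` be a class of varieties which is closed under projective bundles of ample vector bundles, for
example the class of all smooth projective varieties over the number field.

0. For each `X ∈ 𝒱` and each ample vector bundle `E` of rank `k + 1` on `X` with the projective bundle
   `Y` and its tautological class `ξ`: the product with `ξ` is a bijection
   `Ch^(i + k)(Y)^0 → Ch^(i + k + 1)(Y)^0` if and only if the product with `c_(k + 1)(E)` is a bijection
   `Ch^i(X)^0 → Ch^(i + k + 1)(X)^0`; and `(-1)^(i + k) (z, z) > 0` for all `z ≠ 0` in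
   `Ch^(i + k)(Y)^0` with `ξ z = 0` if and only if `(-1)^i (x, c_k(E) x) > 0` for all `x ≠ 0` in
   `Ch^i(X)^0` with `c_(k + 1)(E) x = 0`.
1. The following are equivalent:
   * Question 1 for all `X ∈ 𝒱`, all ample classes, all codimensions;
   * the mixed form: the product with `L_1 ⋯ L_k` is a bijection `Ch^i(X)^0 → Ch^(i + k)(X)^0` for all
     `X ∈ 𝒱` and all ample classes `L_1, …, L_k`, `n + 1 = 2 i + k`;
   * the product with `c_e(E)` is a bijection `Ch^i(X)^0 → Ch^(i + e)(X)^0` for all `X ∈ 𝒱` and all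
     ample vector bundles `E` on `X` of rank `e`, `n + 1 = 2 i + e`.
2. Question 2 for all `X ∈ 𝒱`, all ample classes and all codimensions is equivalent to
   `(-1)^i (x, c_k(E) x) > 0` for all `X ∈ 𝒱`, all ample vector bundles `E` on `X` of rank `k + 1`,
   `n + 1 = 2 i + k`, and all `x ≠ 0` in `Ch^i(X)^0` with `c_(k + 1)(E) x = 0`.
3. Question 2 for all `X ∈ 𝒱` implies `(-1)^i (x, L_1 ⋯ L_k x) ≥ 0` for all ample classes
   `L_0, …, L_k` and all `x` in `Ch^i(X)^0` with `L_0 L_1 ⋯ L_k x = 0`. If Question 1 holds for all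
   `X ∈ 𝒱`, then Question 2 is equivalent to `(-1)^i (x, L_1 ⋯ L_k x) > 0` for these `x ≠ 0`.

The proof: the kernel of the tautological class `ξ` on the cycles in the middle codimension on the
projective bundle of `E` consists of the classes `G(ξ) x` with `c_(k + 1)(E) x = 0`, where
`G(ξ) = ξ^k - c_1 ξ^(k - 1) + ⋯`, and `(G(ξ) x, G(ξ) x) = (-1)^k (x, c_k(E) x)`. For
`E = t L_0 ⊕ L_1 ⊕ ⋯ ⊕ L_k` and `t → 0` this gives the mixed form with `≥`; Question 1 excludes
equality. This is an arithmetic analogue of the theorem of Bloch and Gieseker.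
-/

set_option autoImplicit false

universe u

namespace Pool.Agent.Results.MP_e2c9e7_nt.AmpleVectorBundles

open Pool.Agent.H844.Mid Pool.Agent.H844.Amp

theorem result {𝒱 : Set Var.{u}} {vb : ∀ X : Var.{u}, ℕ → Set (ℕ → X.C)} (h : IsClass 𝒱 vb) :
    (∀ X ∈ 𝒱, ∀ Y ∈ 𝒱, ∀ k, ∀ c ∈ vb X (k + 1), ∀ ξ ∈ Y.ample, ∀ p d,
      IsProjBundle X (k + 1) c Y ξ p d → ∀ i,
        (Y.Middle1 (i + k) ξ ↔ BundleQ1 X i (k + 1) c) ∧
        (Y.Middle2 (i + k) ξ ↔ BundleQ2 X i k c)) ∧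
    List.TFAE [AllQ1 𝒱,
      ∀ X ∈ 𝒱, ∀ i k, X.dim + 1 = 2 * i + k → MixedQ1 X i k,
      ∀ X ∈ 𝒱, ∀ i e, ∀ c ∈ vb X e, X.dim + 1 = 2 * i + e → BundleQ1 X i e c] ∧
    (AllQ2 𝒱 ↔ ∀ X ∈ 𝒱, ∀ i k, ∀ c ∈ vb X (k + 1), X.dim + 1 = 2 * i + k → BundleQ2 X i k c) ∧
    (AllQ2 𝒱 → ∀ X ∈ 𝒱, ∀ i k, X.dim + 1 = 2 * i + k → WeakMixedQ2 X i k) ∧
    (AllQ1 𝒱 → (AllQ2 𝒱 ↔ ∀ X ∈ 𝒱, ∀ i k, X.dim + 1 = 2 * i + k → MixedQ2 X i k)) :=
  ⟨fun X hX Y hY _ c hc _ hξ _ _ hp _ =>
    ⟨bundle_q1 (h.isCycles X hX) (h.isCycles Y hY) hp (h.chern_zero X hX _ c hc)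
      (h.chern_mem X hX _ c hc) ((h.isCycles Y hY).ample_le hξ),
    bundle_q2 (h.isCycles X hX) (h.isCycles Y hY) hp (h.chern_zero X hX _ c hc)
      (h.chern_mem X hX _ c hc) ((h.isCycles Y hY).ample_le hξ)⟩,
    Pool.Agent.H844.Amp.main h⟩

end Pool.Agent.Results.MP_e2c9e7_nt.AmpleVectorBundles
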