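import Pool.Agent.H844.Mid.Main

/-!
# Beilinson's conjectures on height pairings: reduction to the middle codimension

Let `X` be a smooth projective variety over a number field, `n = dim X`. The two questions of Beilinson
for an ample class `L` and the codimension `i`, `n + 1 = 2 i + k`, are `Q1 i k L`:
`L ^ k : Ch^i(X)^0 → Ch^(i + k)(X)^0` is bijective, and `Q2 i k L`: `(-1)^i (x, L ^ k x) > 0` for all
`x ≠ 0` in `Ch^i(X)^0` with `L ^ (k + 1) x = 0`.

Let `Y = X × (ℙ¹)^r` and let `M = L + d_1 h_1 + ⋯ + d_r h_r` be an ample class on `Y`.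

1. Question 1 (for `k ≥ 1`) and Question 2 for `Y`, `M` and the codimension `i`,
   `dim Y + 1 = 2 i + k`, hold if and only if they hold for `X`, `L` and all codimensions `i'` with
   `n + 1 = 2 i' + k'` and `k - r ≤ k' ≤ k + r`.
2. So one statement in the middle codimension of one variety is equivalent to the questions for `X`
   and `L` in all codimensions. Question 1: `M : Ch^j(Y)^0 → Ch^(j + 1)(Y)^0` is bijective, where
   `dim Y = 2 j`, `r ≥ n - 2`. Question 2: `(-1)^j (z, z) > 0` for all `z ≠ 0` in `Ch^j(Y)^0` with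
   `M z = 0`, where `dim Y = 2 j - 1`, `r ≥ n - 1`.
3. For a class of varieties closed under products with `ℙ¹`, and an unbounded set `J` of natural
   numbers: Question 1 for all varieties, ample classes and codimensions is equivalent to the
   bijectivity of `M : Ch^j(Y)^0 → Ch^(j + 1)(Y)^0` for all `Y` in the class of dimension `2 j` with
   `j ∈ J`; Question 2 is equivalent to `(-1)^j (z, z) > 0` for all `z ≠ 0` in `Ch^j(Y)^0` with
   `M z = 0`, for all `Y` in the class of dimension `2 j - 1` with `j ∈ J`. For example `J` can be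
   the set of even numbers, so that there is no sign.

The variety is recorded by its Chow ring, the cycles homologous to zero, the ample classes and the
height pairing (`Var`), with the basic facts `IsCycles`; the data of `X × ℙ¹` are defined by the
projective bundle formula (`line`), and `lines X r` is `X × (ℙ¹)^r`.
-/

set_option autoImplicit false

universe u

namespace Pool.Agent.Results.MP_e2c9e7_nt.MiddleCodimension

open Pool.Agent.H844.Mid

theorem result :
    (∀ X : Var.{u}, X.IsCycles → ∀ (r : ℕ) (M : (X.lines r).C), M ∈ (X.lines r).ample →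
      (∀ i k, X.dim + r + 1 = 2 * i + k → 1 ≤ k →
        ((X.lines r).Q1 i k M ↔ ∀ i' k', X.dim + 1 = 2 * i' + k' → k ≤ k' + r → k' ≤ k + r →
          X.Q1 i' k' (X.base r M))) ∧
      (∀ i k, X.dim + r + 1 = 2 * i + k →
        ((X.lines r).Q2 i k M ↔ ∀ i' k', X.dim + 1 = 2 * i' + k' → k ≤ k' + r → k' ≤ k + r →
          X.Q2 i' k' (X.base r M))) ∧
      (∀ j, X.dim + r = 2 * j → X.dim ≤ r + 2 →
        ((X.lines r).Middle1 j M ↔ ∀ i k, X.dim + 1 = 2 * i + k → X.Q1 i k (X.base r M))) ∧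
      (∀ j, X.dim + r + 1 = 2 * j → X.dim ≤ r + 1 →
        ((X.lines r).Middle2 j M ↔ ∀ i k, X.dim + 1 = 2 * i + k → X.Q2 i k (X.base r M)))) ∧
    ∀ 𝒱 : Set Var.{u}, (∀ X ∈ 𝒱, X.IsCycles) → (∀ X ∈ 𝒱, X.line ∈ 𝒱) →
      ∀ J : Set ℕ, (∀ N, ∃ j ∈ J, N ≤ j) →
        ((∀ X ∈ 𝒱, ∀ L ∈ X.ample, ∀ i k, X.dim + 1 = 2 * i + k → X.Q1 i k L) ↔
          ∀ X ∈ 𝒱, ∀ j ∈ J, X.dim = 2 * j → ∀ M ∈ X.ample, X.Middle1 j M) ∧
        ((∀ X ∈ 𝒱, ∀ L ∈ X.ample, ∀ i k, X.dim + 1 = 2 * i + k → X.Q2 i k L) ↔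
          ∀ X ∈ 𝒱, ∀ j ∈ J, X.dim + 1 = 2 * j → ∀ M ∈ X.ample, X.Middle2 j M) :=
  ⟨fun _ hX r _ hM => ⟨fun _ _ hi hk => Var.q1_lines hX r hM hi hk,
    fun _ _ hi => Var.q2_lines hX r hM hi, fun _ hj hr => Var.q1_all hX hM hj hr,
    fun _ hj hr => Var.q2_all hX hM hj hr⟩,
   fun _ hc h𝒱 _ hJ => ⟨Var.q1_class hc h𝒱 hJ, Var.q2_class hc h𝒱 hJ⟩⟩

/-- The basic facts hold for the product with a projective line if they hold for `X`. -/
lemma isCycles_line {X : Var.{u}} (hX : X.IsCycles) : X.line.IsCycles := hX.line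

end Pool.Agent.Results.MP_e2c9e7_nt.MiddleCodimension
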