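import Pool.Agent.H844.Sig.Final

/-!
# The signature of the height form on primitive cycles of an abelian variety does not depend on the
polarization

Let `A` be an abelian variety of dimension `n` over a number field and `n + 1 = 2 i + k`. Question 2
says that the form `(-1)^i (x, L^k x)` is positive on the primitive classes `x ≠ 0` (the classes in
`Ch^i(A)^0` with `L^(k+1) x = 0`). Here nothing is assumed about the signs of the heights: let
`A.plus i k L` and `A.minus i k L` in `ℕ ∪ {∞}` be the numbers of the positive and of the negative
squares of this form, that is the largest sizes `r` of a matrix `± (-1)^i (x_a, L^k x_b)` with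
primitive `x_1, …, x_r` which is positive definite as a real symmetric matrix.

* These numbers `N`, `N'` are the same for all ample classes `L`, and also for the mixed forms
  `(-1)^i (x, L_0 ⋯ L_(k-1) x)` on the classes with `L_0 ⋯ L_k x = 0`, for all symmetric ample
  classes `L_0, …, L_k`. Question 2 with `≥` in place of `>` holds for `L` if and only if `N' = 0`.
* They do not become smaller when `A` is replaced by an abelian variety `J` which has `A` as a quotient.

The proof: deformation of the polarization in the cone of real ample classes; the mixed hard Lefschetz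
theorem says that the radicals of the forms on the whole of a finite-dimensional space of cycles are
constant, although the height pairing may be degenerate, and the primitive classes are the difference of
two such forms.
-/

set_option autoImplicit false

universe u v

namespace Pool.Agent.Results.MP_e2c9e7_nt.SignatureOfHeights

open Pool.Agent.H844.Hgt.St

theorem result :
    (∀ (A : AV.{u, v}) (i k : ℕ), A.dim + 1 = 2 * i + k → ∃ N N' : ℕ∞,
      (∀ L ∈ A.ample, A.plus i k (fun _ => L) = N ∧ A.minus i k (fun _ => L) = N' ∧
        (A.SemiQ2 i k L ↔ N' = 0)) ∧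
      ∀ L : Fin (k + 1) → A.C, (∀ p, L p ∈ A.Sym) → A.plus i k L = N ∧ A.minus i k L = N') ∧
    ∀ J A : AV.{u, v}, IsQuotient J A → ∀ i k k' : ℕ, A.dim + 1 = 2 * i + k →
      J.dim + 1 = 2 * i + k' → ∀ L ∈ A.ample, ∀ M ∈ J.ample,
        A.plus i k (fun _ => L) ≤ J.plus i k' (fun _ => M) ∧
        A.minus i k (fun _ => L) ≤ J.minus i k' (fun _ => M) := by
  refine ⟨fun A i k hik => ?_, fun J A h i k k' hik hik' L hL M hM =>
    ⟨Pool.Agent.H844.Sig.quot_le h hik hik' _ hL hM,
      Pool.Agent.H844.Sig.quot_le h hik hik' _ hL hM⟩⟩
  obtain ⟨N, N', h1, h2⟩ := Pool.Agent.H844.Sig.main A hik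
  refine ⟨N, N', fun L hL => ⟨(h1 L hL).1, (h1 L hL).2, ?_⟩, h2⟩
  rw [← Pool.Agent.H844.Sig.semi_iff, (h1 L hL).2]

end Pool.Agent.Results.MP_e2c9e7_nt.SignatureOfHeights
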