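import Pool.Agent.H844.Hgt.Cls

/-!
# Beilinson's conjectures on height pairings for all abelian varieties follow from the theta
divisors on Jacobians, and they imply their mixed forms

Let `𝒜` be a class of abelian varieties over a number field and `𝒥 ⊆ 𝒜` a class such that every
member of `𝒜` is a quotient of a member of `𝒥`, and let `θ J` be ONE ample class on each `J ∈ 𝒥`.
For example `𝒜` consists of all abelian varieties, `𝒥` of the Jacobians, and `θ J` is the theta
divisor; or `𝒥 = 𝒜 = {A}`; or `𝒥 = {J}` and `𝒜` consists of the quotients of `J`.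

Question 1 (all codimensions): the following are equivalent.
1. Question 1 for all `J ∈ 𝒥` and the class `θ J`.
2. Question 1 for all `A ∈ 𝒜` and all ample classes.
3. For all `A ∈ 𝒜`, all `k = dim A + 1 - 2 i ≥ 0` and all ample `L_1, …, L_k` the product with
   `L_1 ⋯ L_k` is an isomorphism `Ch^i(A)^0 → Ch^(i + k)(A)^0`.

Question 2 (each codimension `i`): the following are equivalent.
1. Question 2 for all `J ∈ 𝒥` and the class `θ J`.
2. Question 2 for all `A ∈ 𝒜` and all ample classes.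
3. For all `A ∈ 𝒜`, `k = dim A + 1 - 2 i ≥ 0` and all ample `L_0, …, L_k`:
   `(-1)^i (x, L_0 ⋯ L_(k-1) x) > 0` for all `x ≠ 0` in `Ch^i(A)^0` with `L_0 ⋯ L_k x = 0`.

An abelian variety is recorded by the structure `AV`: its Chow ring, the cycles homologous to zero
with their Beauville components, the symmetric ample classes, the height pairing, and the facts
about them which are used (`IsAbelianCycles`).
-/

set_option autoImplicit false

universe u v

namespace Pool.Agent.Results.MP_e2c9e7_nt.ThetaDivisors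

open Pool.Agent.H844.Hgt.St

theorem result {𝒥 𝒜 : Set AV.{u, v}} (θ : ∀ J : AV.{u, v}, J.C) (hθ : ∀ J ∈ 𝒥, θ J ∈ J.ample)
    (hsub : 𝒥 ⊆ 𝒜) (hcof : ∀ A ∈ 𝒜, ∃ J ∈ 𝒥, IsQuotient J A) :
    List.TFAE [∀ J ∈ 𝒥, J.Q1 (θ J), ∀ A ∈ 𝒜, ∀ L ∈ A.ample, A.Q1 L, ∀ A ∈ 𝒜, A.MixedQ1] ∧
    ∀ i : ℕ, List.TFAE [∀ J ∈ 𝒥, J.Q2 i (θ J), ∀ A ∈ 𝒜, ∀ L ∈ A.ample, A.Q2 i L,
      ∀ A ∈ 𝒜, A.MixedQ2 i] :=
  Pool.Agent.H844.Hgt.classes θ hθ hsub hcof

/-- Every abelian variety is a quotient of itself, so the theorem applies to `𝒥 = 𝒜 = {A}`. -/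
lemma quotient_self (A : AV.{u, v}) : IsQuotient A A := Pool.Agent.H844.Hgt.quot_refl A

end Pool.Agent.Results.MP_e2c9e7_nt.ThetaDivisors
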